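import Pool.Agent.D0H23.PP.Bc2
import Pool.Agent.D0H23.PP.Stm3

/-!
# Module BC3 of PP: Borel-Cantelli (adapted from `Pool.Agent.D0H23.PP.Bc2`)
-/

set_option autoImplicit false

open Finset Filter MeasureTheory ProbabilityTheory

namespace Pool.Agent.D0H12.PP

open Pool.Agent.D0H23.PP
open Pool.Agent.D0H35.PP (six_le term_le)

lemma asym3 {e d : ℝ} (he : 0 < e) (hd : 0 ≤ d) :
    ∀ᶠ x : ℝ in atTop, ∀ V W : ℝ, 1 ≤ V → V * x ^ e ≤ W →
      (V + 1) * Real.log (8 * x + 1) + x ^ (-d : ℝ) * (V + 1) + 2 * Real.log x ≤ W := by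
  filter_upwards [six_le (a := e / 2) (b := e) (by linarith), log_le2 (c := e / 2) (by linarith),
    eventually_ge_atTop 1] with x h6 hl hx1 V W hV hW
  have hx0 : 0 < x := by linarith
  have e2 : 1 ≤ x ^ (e / 2) := Real.one_le_rpow hx1 (by linarith)
  have e3 : x ^ (-d : ℝ) ≤ 1 := Real.rpow_le_one_of_one_le_of_nonpos hx1 (by linarith)
  have e4 : 0 ≤ x ^ (-d : ℝ) := Real.rpow_nonneg hx0.le _
  have e6 : 0 ≤ Real.log (8 * x + 1) := Real.log_nonneg (by linarith)
  have t1 : (V + 1) * Real.log (8 * x + 1) ≤ 2 * (V * x ^ (e / 2)) := by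
    calc (V + 1) * Real.log (8 * x + 1) ≤ (2 * V) * x ^ (e / 2) :=
          mul_le_mul (by linarith) hl.1 e6 (by linarith)
      _ = _ := by ring
  have t2 : x ^ (-d : ℝ) * (V + 1) ≤ 2 * (V * x ^ (e / 2)) := by
    calc x ^ (-d : ℝ) * (V + 1) ≤ 1 * (2 * V) :=
          mul_le_mul e3 (by linarith) (by linarith) (by norm_num)
      _ = 2 * (V * 1) := by ring
      _ ≤ _ := by gcongr
  have t3 : 2 * Real.log x ≤ 2 * (V * x ^ (e / 2)) := by
    have : Real.log x ≤ V * x ^ (e / 2) := by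
      calc Real.log x ≤ x ^ (e / 2) := hl.2
        _ = 1 * x ^ (e / 2) := (one_mul _).symm
        _ ≤ _ := by gcongr
    linarith
  have t4 : 6 * (V * x ^ (e / 2)) ≤ V * x ^ e := by
    calc 6 * (V * x ^ (e / 2)) = V * (6 * x ^ (e / 2)) := by ring
      _ ≤ _ := mul_le_mul_of_nonneg_left h6 (by linarith)
  linarith

theorem t_BC3 : S_TWO → S_BC3 := by
  intro hTWO a b e hb0 he0 hpos Ω _ μ _ Y hm hind C C' M hdisj hyp
  classical
  set A : ℕ → Set Ω := fun n => {ω | Odd n ∧
    ((hit2 (C n) (C' n) (M n) (fun k => Y k ω)).card : ℝ) <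
      ((M n).card : ℝ) * (n : ℝ) ^ (-(2 * b) - 2 * e : ℝ)} with hA
  have hcast : Tendsto (fun n : ℕ => (n : ℝ)) atTop atTop := tendsto_natCast_atTop_atTop
  have q1 := hcast.eventually (asym3 (e := e) (d := b) he0 hb0.le)
  have q3 := hcast.eventually (six_le (a := -b - e) (b := 0) (by linarith))
  have hbound : ∀ᶠ n : ℕ in atTop, μ.real (A n) ≤ 2 * (1 / (n : ℝ) ^ 2) := by
    filter_upwards [hyp, q1, q3, eventually_ge_atTop 1] with n hn p1 p3 hn1
    by_cases hodd : Odd n
    · obtain ⟨m1, m2, m3⟩ := hn hodd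
      have hx : (1 : ℝ) ≤ n := by exact_mod_cast hn1
      have hx0 : (0 : ℝ) < n := by linarith
      have hm2 : ((M n).card : ℝ) ≤ 8 * (n : ℝ) := by exact_mod_cast m2
      set x : ℝ := (n : ℝ) with hxdef
      obtain ⟨κ, hκ⟩ : ∃ κ : ℝ, κ = ((M n).card : ℝ) := ⟨_, rfl⟩
      rw [← hκ] at m1 hm2
      have hκ0 : 0 ≤ κ := by rw [hκ]; exact Nat.cast_nonneg _
      set l : ℝ := x ^ (-b : ℝ) with hl
      have hl0 : 0 ≤ l := Real.rpow_nonneg hx0.le _
      obtain ⟨V, hV⟩ : ∃ V : ℝ, V = κ * x ^ (-b - e : ℝ) := ⟨_, rfl⟩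
      obtain ⟨U, hU⟩ : ∃ U : ℝ, U = κ * x ^ (-(2 * b) - 2 * e : ℝ) := ⟨_, rfl⟩
      have hU1 : 1 ≤ U := by
        have h1 : x ^ (a : ℝ) * x ^ (-(2 * b) - 2 * e : ℝ) ≤ U := by
          rw [hU]; exact mul_le_mul_of_nonneg_right m1 (Real.rpow_nonneg hx0.le _)
        rw [← Real.rpow_add hx0] at h1
        exact (Real.one_le_rpow hx (by linarith)).trans h1
      have hUV : U ≤ V := by
        rw [hU, hV]
        exact mul_le_mul_of_nonneg_left (Real.rpow_le_rpow_of_exponent_le hx (by linarith)) hκ0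
      have hV1 : 1 ≤ V := hU1.trans hUV
      set s : ℕ := ⌈V⌉₊ with hs
      set r : ℕ := ⌈U⌉₊ with hr
      have hs1 : V ≤ s := Nat.le_ceil _
      have hs2 : (s : ℝ) ≤ V + 1 := (Nat.ceil_lt_add_one (by linarith)).le
      have hr1 : U ≤ r := Nat.le_ceil _
      have hr2 : (r : ℝ) ≤ U + 1 := (Nat.ceil_lt_add_one (by linarith)).le
      have hrs : r ≤ s := Nat.ceil_le_ceil hUV
      have hsM : s ≤ (M n).card := by
        have h1 : 6 * V ≤ κ := by
          calc 6 * V = κ * (6 * x ^ (-b - e : ℝ)) := by rw [hV]; ring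
            _ ≤ κ * x ^ (0 : ℝ) := mul_le_mul_of_nonneg_left p3 hκ0
            _ = κ := by rw [Real.rpow_zero, mul_one]
        have : (s : ℝ) ≤ (M n).card := by rw [← hκ]; linarith
        exact_mod_cast this
      have hT := hTWO Ω μ Y hm hind (C n) (C' n) (M n) l hl0 (hdisj n) m3 r s hrs hsM
      have hsub : A n ⊆ {ω | (hit2 (C n) (C' n) (M n) (fun k => Y k ω)).card < r} := by
        rintro ω ⟨-, hω⟩
        rw [← hκ, ← hU] at hω
        have : ((hit2 (C n) (C' n) (M n) (fun k => Y k ω)).card : ℝ) < r := hω.trans_le hr1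
        exact_mod_cast this
      have hmono : μ.real (A n) ≤
          μ.real {ω | (hit2 (C n) (C' n) (M n) (fun k => Y k ω)).card < r} :=
        measureReal_mono hsub
      rw [← hκ] at hT
      have t1 : (κ + 1) ^ s * Real.exp (-(l * (κ - s))) ≤ 1 / x ^ 2 := by
        apply term_le hx hκ0 hm2 hs2
        have e1 : V * x ^ e = l * κ := by
          rw [hV, hl, mul_assoc, ← Real.rpow_add hx0, mul_comm]
          congr 2
          ring
        have e3 : l * s ≤ l * (V + 1) := mul_le_mul_of_nonneg_left hs2 hl0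
        have := p1 V (l * κ) hV1 e1.le
        rw [mul_sub]
        linarith
      have t2 : (κ + 1) ^ r * Real.exp (-(l * ((s : ℝ) - r))) ≤ 1 / x ^ 2 := by
        apply term_le hx hκ0 hm2 hr2
        have e1 : U * x ^ e = l * V := by
          rw [hU, hV, hl, mul_assoc, ← Real.rpow_add hx0, mul_left_comm, ← Real.rpow_add hx0]
          congr 2
          ring
        have e2 : l * V ≤ l * s := mul_le_mul_of_nonneg_left hs1 hl0
        have e3 : l * r ≤ l * (U + 1) := mul_le_mul_of_nonneg_left hr2 hl0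
        have := p1 U (l * V) hU1 e1.le
        rw [mul_sub]
        linarith
      linarith
    · have : A n = ∅ := by
        rw [hA]
        ext ω
        simp [hodd]
      rw [this, measureReal_empty]
      positivity
  have hsum : Summable (fun n => μ.real (A n)) := by
    have hs2 : Summable (fun n : ℕ => 2 * (1 / (n : ℝ) ^ 2)) :=
      (Real.summable_one_div_nat_pow.mpr (by norm_num)).mul_left 2
    refine Summable.of_norm_bounded_eventually_nat hs2 ?_
    filter_upwards [hbound] with n hn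
    rwa [Real.norm_eq_abs, abs_of_nonneg measureReal_nonneg]
  have hfin : ∑' n, μ (A n) ≠ ⊤ := by
    have h1 := hsum.tsum_ofReal_ne_top
    have h2 : ∀ n, ENNReal.ofReal (μ.real (A n)) = μ (A n) := fun n => ofReal_measureReal
    simpa only [h2] using h1
  filter_upwards [ae_eventually_notMem hfin] with ω hω
  filter_upwards [hω] with n hn hodd
  by_contra hcon
  exact hn ⟨hodd, not_le.mp hcon⟩

end Pool.Agent.D0H12.PP
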